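import Pool.Agent.Lib.H11Q.F17

/-!
# MP_a00a7b_an, Q1: a closed hyperbolic surface `S` with `K(S) < Kbar_aut`

The paper proof is `Pool/Agent/Lib/H11Q/PROOF.md`.  The surface is a finite cover of a small twist deformation of the
orbifold of signature `(0; 2, 2, 2, 3)`, a cover of degree 7 of the `(2, 3, 7)` orbifold.
-/

set_option autoImplicit false

namespace Pool.Agent.Results.MP_a00a7b_an.BelowKbar

open Pool.Agent.Lib.H11Q

theorem disc_not_compact : ¬ IsCompact (Set.univ : Set Disc) := by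
  intro h
  have h1 : IsCompact ((Subtype.val : Disc → ℂ) '' Set.univ) := h.image continuous_subtype_val
  have h2 : ((Subtype.val : Disc → ℂ) '' Set.univ) = Metric.ball 0 1 := by
    ext z
    simp
  rw [h2] at h1
  have h3 : closure (Metric.ball (0 : ℂ) 1) = Metric.closedBall 0 1 := closure_ball 0 one_ne_zero
  rw [h1.isClosed.closure_eq] at h3
  have h4 : (1 : ℂ) ∈ Metric.ball (0 : ℂ) 1 := by
    rw [h3]
    simp
  simp at h4

theorem ne_bot {Γ : Subgroup (Disc ≃ₜ Disc)} (h : IsSurfaceGroup Γ) : Γ ≠ ⊥ := by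
  rintro rfl
  obtain ⟨K, hK, hz⟩ := h.cocompact
  refine disc_not_compact ?_
  have h1 : K = Set.univ := by
    refine Set.eq_univ_of_forall fun z => ?_
    obtain ⟨g, hg, hgz⟩ := hz z
    rw [Subgroup.mem_bot] at hg
    rw [hg] at hgz
    exact hgz
  rw [← h1]
  exact hK

theorem result : ∃ Γ : Subgroup (Disc ≃ₜ Disc), IsSurfaceGroup Γ ∧ Γ ≠ ⊥ ∧
    (∃ K : ℝ, 1 ≤ K ∧ K < Kbar ∧ QCHomog K Γ) ∧ KS Γ < Kbar := by
  obtain ⟨Γ, h1, h2, h3⟩ := F_final
  exact ⟨Γ, h1, ne_bot h1, h2, h3⟩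

end Pool.Agent.Results.MP_a00a7b_an.BelowKbar
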